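import Pool.Agent.Lib.ALL.Defs
import Pool.Agent.Lib.LU1_h15.Mk

/-!
# Block Z of PROJECT ALL: the ring `A₂` is the ring of a frame

`B` is a frame, `A` a local ring containing `B.R`, `W` a valuation of `A[1/χ]` extending the content
of `B` with `A = A[1/χ] ∩ {W ≥ 0}`, such that every value is the value of a unit of `A[1/χ]`, the
maximal ideal of `A` is `(y) A + {W > 0}`, and `A` is the sum of its intersections with finitely many
`B.R[1/χ] a i`.  Then `A` is the ring of a frame with the same `y`.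
-/

set_option autoImplicit false

namespace Pool.Agent.ALL6

open Pool.Agent.H15JM (RVal)
open Pool.Agent.LU1 (VPos locv le_locv locv_le locv_inv locv_adjoin_le)
open Pool.Agent.ALL (FR)

universe u

/-- A homomorphism `χ` on a finitely generated subgroup `Γ` of `ℝ` with prescribed values. -/
theorem exists_hom {G : Type*} [CommGroup G] (U : Subgroup G) (W : G → ℝ)
    (hW : ∀ a ∈ U, ∀ b ∈ U, W (a * b) = W a + W b) (Γ : AddSubgroup ℝ) (hΓ : Γ.FG)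
    (hU : ∀ γ ∈ Γ, ∃ a ∈ U, W a = γ) :
    ∃ χ : ℝ → G, (∀ γ ∈ Γ, χ γ ∈ U ∧ W (χ γ) = γ) ∧
      ∀ γ ∈ Γ, ∀ δ ∈ Γ, χ (γ + δ) = χ γ * χ δ := by
  classical
  have : Module.Finite ℤ Γ := by
    rw [Module.Finite.iff_addGroup_fg]
    exact (AddGroup.fg_iff_addSubgroup_fg Γ).2 hΓ
  let b := Module.finBasis ℤ Γ
  choose a ha hWa using fun i => hU _ (b i).2
  have hW1 : W 1 = 0 := by
    have := hW 1 U.one_mem 1 U.one_mem
    rw [mul_one] at this
    linarith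
  have hWinv : ∀ g ∈ U, W g⁻¹ = - W g := by
    intro g hg
    have := hW g hg g⁻¹ (U.inv_mem hg)
    rw [mul_inv_cancel, hW1] at this
    linarith
  have hWpow : ∀ g ∈ U, ∀ n : ℕ, W (g ^ n) = n * W g := by
    intro g hg n
    induction n with
    | zero => simp [hW1]
    | succ n ih =>
      rw [pow_succ, hW _ (U.pow_mem hg n) _ hg, ih]
      push_cast; ring
  have hWzpow : ∀ g ∈ U, ∀ n : ℤ, W (g ^ n) = n * W g := by
    intro g hg n
    cases n with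
    | ofNat n => simpa using hWpow g hg n
    | negSucc n =>
      rw [zpow_negSucc, hWinv _ (U.pow_mem hg _), hWpow g hg]
      push_cast; ring
  have hWprod : ∀ (s : Finset (Fin (Module.finrank ℤ Γ))) (n : Fin (Module.finrank ℤ Γ) → ℤ),
      W (∏ i ∈ s, a i ^ n i) = ∑ i ∈ s, (n i : ℝ) * (b i : ℝ) := by
    intro s n
    induction s using Finset.induction_on with
    | empty => simp [hW1]
    | insert i s hi ih =>
      rw [Finset.prod_insert hi, Finset.sum_insert hi, hW _ (U.zpow_mem (ha i) _) _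
        (Subgroup.prod_mem _ fun j _ => U.zpow_mem (ha j) _), ih, hWzpow _ (ha i), hWa]
  refine ⟨fun γ => if h : γ ∈ Γ then ∏ i, a i ^ (b.repr ⟨γ, h⟩ i) else 1, fun γ hγ => ?_,
    fun γ hγ δ hδ => ?_⟩
  · simp only [dif_pos hγ]
    refine ⟨Subgroup.prod_mem _ fun j _ => U.zpow_mem (ha j) _, ?_⟩
    rw [hWprod]
    have h1 := congrArg Subtype.val (b.sum_repr ⟨γ, hγ⟩)
    rw [AddSubgroup.val_finsetSum] at h1
    refine Eq.trans (Finset.sum_congr rfl fun i _ => ?_) h1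
    rw [AddSubgroup.coe_zsmul, zsmul_eq_mul]
  · simp only [dif_pos hγ, dif_pos hδ, dif_pos (Γ.add_mem hγ hδ)]
    rw [← Finset.prod_mul_distrib]
    refine Finset.prod_congr rfl fun i _ => ?_
    have h1 : b.repr ⟨γ + δ, Γ.add_mem hγ hδ⟩ i = b.repr ⟨γ, hγ⟩ i + b.repr ⟨δ, hδ⟩ i := by
      have : (⟨γ + δ, Γ.add_mem hγ hδ⟩ : Γ) = ⟨γ, hγ⟩ + ⟨δ, hδ⟩ := rfl
      rw [this, map_add, Finsupp.add_apply]
    rw [h1, zpow_add]

/-- A subgroup of `ℝ` with a multiple in a finitely generated one is finitely generated. -/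
theorem fg_of_mul {Γ Γ' : AddSubgroup ℝ} (hΓ : Γ.FG) {e : ℕ} (he : 0 < e)
    (h : ∀ γ ∈ Γ', (e : ℝ) * γ ∈ Γ) : Γ'.FG := by
  have : Module.Finite ℤ Γ := by
    rw [Module.Finite.iff_addGroup_fg]
    exact (AddGroup.fg_iff_addSubgroup_fg Γ).2 hΓ
  let φ : Γ' →ₗ[ℤ] Γ :=
    { toFun := fun γ => ⟨(e : ℝ) * γ, h γ γ.2⟩
      map_add' := fun γ δ => Subtype.ext (by
        show (e : ℝ) * ((γ : ℝ) + δ) = (e : ℝ) * γ + (e : ℝ) * δ
        ring)
      map_smul' := fun n γ => Subtype.ext (by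
        show (e : ℝ) * ((n • γ : Γ') : ℝ) = ((n • (⟨(e : ℝ) * γ, h γ γ.2⟩ : Γ) : Γ) : ℝ)
        rw [AddSubgroup.coe_zsmul, AddSubgroup.coe_zsmul, zsmul_eq_mul, zsmul_eq_mul]
        ring) }
  have hinj : Function.Injective φ := by
    intro γ δ hγδ
    have h1 : (e : ℝ) * γ = (e : ℝ) * δ := congrArg Subtype.val hγδ
    apply Subtype.ext
    exact mul_left_cancel₀ (by exact_mod_cast he.ne') h1
  have : IsNoetherian ℤ Γ' := isNoetherian_of_injective φ hinj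
  have h2 : Module.Finite ℤ Γ' := inferInstance
  rw [Module.Finite.iff_addGroup_fg] at h2
  exact (AddGroup.fg_iff_addSubgroup_fg Γ').1 h2

variable {k Ω : Type u} [Field k] [Field Ω] [Algebra k Ω] {v : RVal Ω} {D : ℕ}

/-- `a` is an element of `A[1/χ]`. -/
def AX (B : FR k v D) (A : Subalgebra k Ω) (a : Ω) : Prop := ∃ γ ∈ B.Γ, B.χ γ * a ∈ A

section AX

variable {B : FR k v D} {A : Subalgebra k Ω}

theorem AX.χ0 (B : FR k v D) : B.χ 0 = 1 := by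
  have h1 := B.χ_add 0 B.Γ.zero_mem 0 B.Γ.zero_mem
  rw [add_zero] at h1
  exact (mul_right_cancel₀ (B.χ_ne 0 B.Γ.zero_mem) (by rw [one_mul]; exact h1)).symm

theorem AX.χneg (B : FR k v D) {γ : ℝ} (h : γ ∈ B.Γ) : B.χ (-γ) = (B.χ γ)⁻¹ := by
  have h1 := B.χ_add γ h (-γ) (B.Γ.neg_mem h)
  rw [add_neg_cancel, AX.χ0] at h1
  exact eq_inv_of_mul_eq_one_right h1.symm

theorem AX.of_mem {a : Ω} (h : a ∈ A) : AX B A a :=
  ⟨0, B.Γ.zero_mem, by rw [AX.χ0, one_mul]; exact h⟩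

theorem AX.mul {a b : Ω} (ha : AX B A a) (hb : AX B A b) : AX B A (a * b) := by
  obtain ⟨γ, hγ, h1⟩ := ha
  obtain ⟨δ, hδ, h2⟩ := hb
  refine ⟨γ + δ, B.Γ.add_mem hγ hδ, ?_⟩
  rw [B.χ_add γ hγ δ hδ, mul_mul_mul_comm]
  exact A.mul_mem h1 h2

theorem AX.χ {γ : ℝ} (h : γ ∈ B.Γ) : AX B A (B.χ γ) :=
  ⟨-γ, B.Γ.neg_mem h, by rw [AX.χneg B h, inv_mul_cancel₀ (B.χ_ne γ h)]; exact A.one_mem⟩

theorem AX.χinv {γ : ℝ} (h : γ ∈ B.Γ) : AX B A (B.χ γ)⁻¹ :=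
  ⟨γ, h, by rw [mul_inv_cancel₀ (B.χ_ne γ h)]; exact A.one_mem⟩

end AX

/-- The data of a tame extension. -/
structure TameData (B : FR k v D) (A : Subalgebra k Ω) (W : Ω → ℝ) (Γ' : AddSubgroup ℝ) :
    Prop where
  le : B.R ≤ A
  nonneg : ∀ f ∈ A, v.Ge 0 f
  loc : ∀ f ∈ A, f ≠ 0 → v f = 0 → f⁻¹ ∈ A
  pos : ∃ γ ∈ B.Γ, 0 < γ
  W_mul : ∀ a b, AX B A a → AX B A b → a ≠ 0 → b ≠ 0 → W (a * b) = W a + W b
  W_χ : ∀ γ ∈ B.Γ, W (B.χ γ) = γ
  cut : ∀ a, AX B A a → a ≠ 0 → 0 ≤ W a → a ∈ A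
  Γ_le : ∀ γ ∈ B.Γ, γ ∈ Γ'
  tors : ∃ e : ℕ, 0 < e ∧ ∀ γ ∈ Γ', (e : ℝ) * γ ∈ B.Γ
  unit : ∀ γ ∈ Γ', ∃ a, a ≠ 0 ∧ AX B A a ∧ AX B A a⁻¹ ∧ W a = γ
  val : ∀ a, AX B A a → a ≠ 0 → W a ∈ Γ'
  gen : ∀ f ∈ A, VPos v f → ∃ b : Fin D → Ω, (∀ i, b i ∈ A) ∧ ∃ j ∈ A, (j ≠ 0 → 0 < W j) ∧
    f = ∑ i, B.y i * b i + j
  basis : ∃ (n : ℕ) (a : Fin n → Ω), (∀ i, a i ≠ 0 ∧ AX B A (a i) ∧ AX B A (a i)⁻¹) ∧
    ∀ b ∈ A, ∃ f : Fin n → Ω, (∀ i, f i = 0 ∨ ∃ r ∈ B.R, ∃ γ ∈ B.Γ, f i = B.χ γ * r ∧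
      0 ≤ γ + W (a i)) ∧ b = ∑ i, f i * a i

/-- `A` is the ring of a frame. -/
theorem TameData.exists_FR {B : FR k v D} {A : Subalgebra k Ω} {W : Ω → ℝ} {Γ' : AddSubgroup ℝ}
    (h : TameData B A W Γ') :
    ∃ C : FR k v D, C.R = A ∧ C.Γ = Γ' ∧ C.y = B.y ∧ (∀ γ ∈ B.Γ, C.Un (B.χ γ / C.χ γ)) ∧
      ∀ γ ∈ Γ', AX B A (C.χ γ) ∧ AX B A (C.χ γ)⁻¹ ∧ W (C.χ γ) = γ := by
  classical
  obtain ⟨e, he, htors⟩ := h.tors
  have hfg : Γ'.FG := fg_of_mul B.fg he htors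
  -- the group of the units of `A[1/χ]`
  let U : Subgroup Ωˣ :=
    { carrier := {a | AX B A (a : Ω) ∧ AX B A ((a⁻¹ : Ωˣ) : Ω)}
      mul_mem' := by
        intro a b ha hb
        refine ⟨?_, ?_⟩
        · rw [Units.val_mul]; exact ha.1.mul hb.1
        · rw [mul_inv, Units.val_mul]; exact ha.2.mul hb.2
      one_mem' := ⟨AX.of_mem A.one_mem, by rw [inv_one]; exact AX.of_mem A.one_mem⟩
      inv_mem' := by
        intro a ha
        exact ⟨ha.2, by rw [inv_inv]; exact ha.1⟩ }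
  obtain ⟨X, hX1, hX2⟩ := exists_hom U (fun a => W (a : Ω))
    (fun a ha b hb => by
      rw [Units.val_mul]
      exact h.W_mul _ _ ha.1 hb.1 a.ne_zero b.ne_zero) Γ' hfg
    (fun γ hγ => by
      obtain ⟨a, ha0, ha1, ha2, ha3⟩ := h.unit γ hγ
      exact ⟨Units.mk0 a ha0, ⟨ha1, by rw [Units.val_inv_eq_inv_val]; exact ha2⟩, ha3⟩)
  -- the monomials
  set χ : ℝ → Ω := fun γ => (X γ : Ω) with hχdef
  have hχne : ∀ γ, χ γ ≠ 0 := fun γ => (X γ).ne_zero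
  have hχadd : ∀ γ ∈ Γ', ∀ δ ∈ Γ', χ (γ + δ) = χ γ * χ δ := by
    intro γ hγ δ hδ
    simp only [hχdef]
    rw [hX2 γ hγ δ hδ, Units.val_mul]
  have hχAX : ∀ γ ∈ Γ', AX B A (χ γ) := fun γ hγ => (hX1 γ hγ).1.1
  have hχAX' : ∀ γ ∈ Γ', AX B A (χ γ)⁻¹ := fun γ hγ => by
    have := (hX1 γ hγ).1.2
    rwa [Units.val_inv_eq_inv_val] at this
  have hχW : ∀ γ ∈ Γ', W (χ γ) = γ := fun γ hγ => (hX1 γ hγ).2
  have hW1 : W 1 = 0 := by
    have := h.W_mul 1 1 (AX.of_mem A.one_mem) (AX.of_mem A.one_mem) one_ne_zero one_ne_zero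
    rw [mul_one] at this
    linarith
  have hWinv : ∀ a, a ≠ 0 → AX B A a → AX B A a⁻¹ → W a⁻¹ = - W a := by
    intro a h0 h1 h2
    have := h.W_mul a a⁻¹ h1 h2 h0 (inv_ne_zero h0)
    rw [mul_inv_cancel₀ h0, hW1] at this
    linarith
  -- units of value `0`
  have hunit : ∀ a, a ≠ 0 → AX B A a → AX B A a⁻¹ → W a = 0 → a ∈ A ∧ a⁻¹ ∈ A ∧ v a = 0 := by
    intro a h0 h1 h2 h3
    have h4 : a ∈ A := h.cut a h1 h0 (by rw [h3])
    have h5 : a⁻¹ ∈ A := h.cut _ h2 (inv_ne_zero h0) (by rw [hWinv a h0 h1 h2, h3, neg_zero])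
    have h6 := h.nonneg a h4 h0
    have h7 := h.nonneg _ h5 (inv_ne_zero h0)
    rw [v.map_inv h0] at h7
    exact ⟨h4, h5, le_antisymm (by linarith) h6⟩
  have hχ0 : χ 0 = 1 := by
    have h1 := hχadd 0 Γ'.zero_mem 0 Γ'.zero_mem
    rw [add_zero] at h1
    exact (mul_right_cancel₀ (hχne 0) (by rw [one_mul]; exact h1)).symm
  have hχneg : ∀ γ ∈ Γ', χ (-γ) = (χ γ)⁻¹ := by
    intro γ hγ
    have h1 := hχadd γ hγ (-γ) (Γ'.neg_mem hγ)
    rw [add_neg_cancel, hχ0] at h1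
    exact eq_inv_of_mul_eq_one_right h1.symm
  have hχnsmul : ∀ γ ∈ Γ', ∀ n : ℕ, χ (n * γ) = χ γ ^ n := by
    intro γ hγ n
    induction n with
    | zero => simp [hχ0]
    | succ n ih =>
      have h1 : ((n + 1 : ℕ) : ℝ) * γ = n * γ + γ := by push_cast; ring
      have h2 : (n : ℝ) * γ ∈ Γ' := by
        rw [← nsmul_eq_mul]
        exact Γ'.nsmul_mem hγ n
      rw [h1, hχadd _ h2 _ hγ, ih, pow_succ]
  -- the units `ε`
  set ε : ℝ → Ω := fun γ => B.χ γ / χ γ with hεdef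
  have hε : ∀ γ ∈ B.Γ, ε γ ∈ A ∧ (ε γ)⁻¹ ∈ A ∧ v (ε γ) = 0 ∧ ε γ ≠ 0 := by
    intro γ hγ
    have hγ' := h.Γ_le γ hγ
    have h0 : ε γ ≠ 0 := div_ne_zero (B.χ_ne γ hγ) (hχne γ)
    have h1 : AX B A (ε γ) := by
      simp only [hεdef, div_eq_mul_inv]
      exact (AX.χ hγ).mul (hχAX' γ hγ')
    have h2 : AX B A (ε γ)⁻¹ := by
      have : (ε γ)⁻¹ = χ γ * (B.χ γ)⁻¹ := by
        simp only [hεdef]
        rw [inv_div, div_eq_mul_inv]
      rw [this]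
      exact (hχAX γ hγ').mul (AX.χinv hγ)
    have h3 : W (ε γ) = 0 := by
      have h4 : B.χ γ = ε γ * χ γ := by
        simp only [hεdef]
        rw [div_mul_cancel₀ _ (hχne γ)]
      have h5 := h.W_mul _ _ h1 (hχAX γ hγ') h0 (hχne γ)
      rw [← h4, h.W_χ γ hγ, hχW γ hγ'] at h5
      linarith
    obtain ⟨h6, h7, h8⟩ := hunit _ h0 h1 h2 h3
    exact ⟨h6, h7, h8, h0⟩
  have hεχ : ∀ γ ∈ B.Γ, B.χ γ = χ γ * ε γ := by
    intro γ hγ
    simp only [hεdef]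
    rw [mul_div_cancel₀ _ (hχne γ)]
  have hεadd : ∀ γ ∈ B.Γ, ∀ δ ∈ B.Γ, ε (γ + δ) = ε γ * ε δ := by
    intro γ hγ δ hδ
    simp only [hεdef]
    rw [B.χ_add γ hγ δ hδ, hχadd γ (h.Γ_le γ hγ) δ (h.Γ_le δ hδ), mul_div_mul_comm]
  -- the values of the monomials
  have hχv : ∀ γ ∈ Γ', v (χ γ) = γ := by
    intro γ hγ
    have h1 := htors γ hγ
    have h2 : v (B.χ (e * γ)) = e * γ := B.χ_val _ h1
    rw [hεχ _ h1, hχnsmul γ hγ, v.map_mul (pow_ne_zero _ (hχne γ)) (hε _ h1).2.2.2,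
      (hε _ h1).2.2.1, add_zero, v.map_pow (hχne γ)] at h2
    exact mul_left_cancel₀ (by exact_mod_cast he.ne') h2
  have hχmem : ∀ γ ∈ Γ', 0 ≤ γ → χ γ ∈ A := fun γ hγ h0 =>
    h.cut _ (hχAX γ hγ) (hχne γ) (by rw [hχW γ hγ]; exact h0)
  -- finite generation
  obtain ⟨F₀, hF₀⟩ := B.fgen
  obtain ⟨S, hS⟩ := B.fg
  obtain ⟨n, a, ha, hbasis⟩ := h.basis
  -- the units `u`
  set w : Fin n → Ω := fun i => a i / χ (W (a i)) with hwdef
  have hw : ∀ i, w i ∈ A ∧ w i ≠ 0 := by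
    intro i
    obtain ⟨h0, h1, h2⟩ := ha i
    have hΓi : W (a i) ∈ Γ' := h.val _ h1 h0
    have h3 : w i ≠ 0 := div_ne_zero h0 (hχne _)
    have h4 : AX B A (w i) := by
      simp only [hwdef, div_eq_mul_inv]
      exact h1.mul (hχAX' _ hΓi)
    refine ⟨h.cut _ h4 h3 ?_, h3⟩
    have h5 : a i = w i * χ (W (a i)) := by
      simp only [hwdef]
      rw [div_mul_cancel₀ _ (hχne _)]
    have h6 := h.W_mul _ _ h4 (hχAX _ hΓi) h3 (hχne _)
    rw [← h5, hχW _ hΓi] at h6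
    linarith
  let T : Set Ω := (F₀ : Set Ω) ∪ ((S.image ε : Finset Ω) ∪ (S.image fun γ => (ε γ)⁻¹ : Finset Ω)) ∪
    Set.range w
  have hTfin : T.Finite := ((F₀.finite_toSet.union
    ((Finset.finite_toSet _).union (Finset.finite_toSet _))).union (Set.finite_range w))
  set R' : Subalgebra k Ω := locv v (Algebra.adjoin k (T ∪ χ '' {γ | γ ∈ Γ' ∧ 0 ≤ γ})) with hR'
  have hTR' : ∀ t ∈ T, t ∈ R' := fun t ht => le_locv _ (Algebra.subset_adjoin (Or.inl ht))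
  have hχR' : ∀ γ ∈ Γ', 0 ≤ γ → χ γ ∈ R' := fun γ hγ h0 =>
    le_locv _ (Algebra.subset_adjoin (Or.inr ⟨γ, ⟨hγ, h0⟩, rfl⟩))
  -- `ε` in `R'`
  have hεR' : ∀ γ ∈ B.Γ, ε γ ∈ R' ∧ ε (-γ) ∈ R' := by
    intro γ hγ
    have h1 : γ ∈ AddSubgroup.closure (S : Set ℝ) := by rw [hS]; exact hγ
    have hε0 : ε 0 = 1 := by
      simp only [hεdef]
      rw [AX.χ0, hχ0, div_one]
    have hεn : ∀ δ ∈ B.Γ, ε (-δ) = (ε δ)⁻¹ := by
      intro δ hδ
      have h2 := hεadd δ hδ (-δ) (B.Γ.neg_mem hδ)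
      rw [add_neg_cancel, hε0] at h2
      exact eq_inv_of_mul_eq_one_right h2.symm
    have key : ∀ γ ∈ AddSubgroup.closure (S : Set ℝ), ε γ ∈ R' ∧ ε (-γ) ∈ R' := by
      intro γ hγ
      induction hγ using AddSubgroup.closure_induction with
      | mem x hx =>
        have hxΓ : x ∈ B.Γ := by rw [← hS]; exact AddSubgroup.subset_closure hx
        refine ⟨hTR' _ (Or.inl (Or.inr (Or.inl ?_))), ?_⟩
        · rw [Finset.mem_coe, Finset.mem_image]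
          exact ⟨x, hx, rfl⟩
        · rw [hεn x hxΓ]
          refine hTR' _ (Or.inl (Or.inr (Or.inr ?_)))
          rw [Finset.mem_coe, Finset.mem_image]
          exact ⟨x, hx, rfl⟩
      | zero =>
        rw [neg_zero, hε0]
        exact ⟨R'.one_mem, R'.one_mem⟩
      | add x y hx hy hx' hy' =>
        have hxΓ : x ∈ B.Γ := by rw [← hS]; exact hx
        have hyΓ : y ∈ B.Γ := by rw [← hS]; exact hy
        rw [hεadd x hxΓ y hyΓ, neg_add, hεadd _ (B.Γ.neg_mem hxΓ) _ (B.Γ.neg_mem hyΓ)]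
        exact ⟨R'.mul_mem hx'.1 hy'.1, R'.mul_mem hx'.2 hy'.2⟩
      | neg x _ hx =>
        rw [neg_neg]
        exact ⟨hx.2, hx.1⟩
    exact key γ h1
  have hBR' : B.R ≤ R' := by
    rw [hF₀]
    refine locv_adjoin_le ?_
    rintro f (hf | ⟨γ, ⟨hγ, h0⟩, rfl⟩)
    · exact hTR' _ (Or.inl (Or.inl hf))
    · rw [hεχ γ hγ]
      exact R'.mul_mem (hχR' γ (h.Γ_le γ hγ) h0) (hεR' γ hγ).1
  have hAR' : A ≤ R' := by
    intro b hb
    obtain ⟨f, hf, rfl⟩ := hbasis b hb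
    refine R'.sum_mem fun i _ => ?_
    rcases hf i with h0 | ⟨r, hr, γ, hγ, hfi, hpos⟩
    · rw [h0, zero_mul]; exact R'.zero_mem
    · obtain ⟨h0, h1, h2⟩ := ha i
      have hΓi : W (a i) ∈ Γ' := h.val _ h1 h0
      have h3 : f i * a i = χ (γ + W (a i)) * ε γ * w i * r := by
        have h4 : a i = w i * χ (W (a i)) := by
          simp only [hwdef]
          rw [div_mul_cancel₀ _ (hχne _)]
        rw [hχadd _ (h.Γ_le γ hγ) _ hΓi]
        calc f i * a i = B.χ γ * r * (w i * χ (W (a i))) := by rw [hfi, ← h4]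
          _ = χ γ * ε γ * r * (w i * χ (W (a i))) := by rw [← hεχ γ hγ]
          _ = _ := by ring
      rw [h3]
      exact R'.mul_mem (R'.mul_mem (R'.mul_mem
        (hχR' _ (Γ'.add_mem (h.Γ_le γ hγ) hΓi) hpos) (hεR' γ hγ).1)
        (hTR' _ (Or.inr ⟨i, rfl⟩))) (hBR' hr)
  have hR'A : R' ≤ A := by
    refine locv_le (Algebra.adjoin_le ?_) h.loc
    rintro f (((hf | hf | hf) | ⟨i, rfl⟩) | ⟨γ, ⟨hγ, h0⟩, rfl⟩)
    · apply h.le
      rw [hF₀]
      exact le_locv _ (Algebra.subset_adjoin (Or.inl hf))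
    · rw [Finset.mem_coe, Finset.mem_image] at hf
      obtain ⟨γ, hγ, rfl⟩ := hf
      exact (hε γ (by rw [← hS]; exact AddSubgroup.subset_closure hγ)).1
    · rw [Finset.mem_coe, Finset.mem_image] at hf
      obtain ⟨γ, hγ, rfl⟩ := hf
      exact (hε γ (by rw [← hS]; exact AddSubgroup.subset_closure hγ)).2.1
    · exact (hw i).1
    · exact hχmem γ hγ h0
  have hAeq : A = R' := le_antisymm hAR' hR'A
  refine ⟨{ Γ := Γ'
            fg := hfg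
            full := fun g hg => by
              obtain ⟨m, hm, h1⟩ := B.full g hg
              exact ⟨m, hm, h.Γ_le _ h1⟩
            χ := χ
            χ_ne := fun γ _ => hχne γ
            χ_add := hχadd
            χ_val := hχv
            y := B.y
            y_ne := B.y_ne
            y_pos := B.y_pos
            R := A
            nonneg := h.nonneg
            loc := h.loc
            χ_mem := hχmem
            y_mem := fun i => h.le (B.y_mem i)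
            fgen := ⟨hTfin.toFinset, by
              rw [Set.Finite.coe_toFinset]
              exact hAeq⟩
            gen := ?_
            alg := ?_ }, rfl, rfl, rfl, ?_, ?_⟩
  · -- the maximal ideal
    intro f hf hv
    obtain ⟨b, hb, j, hj, hjW, rfl⟩ := h.gen f hf hv
    by_cases hj0 : j = 0
    · obtain ⟨γ, hγ, h0⟩ := h.pos
      refine ⟨γ, h.Γ_le γ hγ, h0, 0, A.zero_mem, b, hb, ?_⟩
      rw [hj0, mul_zero, add_zero, zero_add]
    · have h1 : W j ∈ Γ' := h.val j (AX.of_mem hj) hj0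
      refine ⟨W j, h1, hjW hj0, j / χ (W j), ?_, b, hb, ?_⟩
      · have h2 : j / χ (W j) ≠ 0 := div_ne_zero hj0 (hχne _)
        have h3 : AX B A (j / χ (W j)) := by
          rw [div_eq_mul_inv]
          exact (AX.of_mem hj).mul (hχAX' _ h1)
        refine h.cut _ h3 h2 ?_
        have h4 := h.W_mul _ _ h3 (hχAX _ h1) h2 (hχne _)
        rw [div_mul_cancel₀ _ (hχne _), hχW _ h1] at h4
        linarith
      · rw [mul_div_cancel₀ _ (hχne _), add_comm]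
  · -- algebraicity
    intro g
    obtain ⟨P, hP0, hP⟩ := B.alg g
    refine ⟨P.map (Subalgebra.inclusion h.le : B.R →+* A), ?_, ?_⟩
    · intro h0
      apply hP0
      refine Polynomial.map_injective (Subalgebra.inclusion h.le : B.R →+* A) ?_ ?_
      · exact Subalgebra.inclusion_injective h.le
      · rw [h0, Polynomial.map_zero]
    · rw [Polynomial.aeval_def, Polynomial.eval₂_map]
      exact hP
  · intro γ hγ
    obtain ⟨h1, h2, h3, h4⟩ := hε γ hγ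
    exact ⟨h1, h4, h3⟩
  · intro γ hγ
    exact ⟨hχAX γ hγ, hχAX' γ hγ, hχW γ hγ⟩

end Pool.Agent.ALL6
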