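import Pool.Agent.Lib.LU1_h15.GalDefs

/-!
# The trace over `D / L`
-/

set_option autoImplicit false

namespace Pool.Agent.ALL6

open Pool.Agent.LU1 (fixO mem_fixO)

universe u

variable {F N : Type*} [Field F] [Field N] [Algebra F N] [FiniteDimensional F N]

/-- The sum of the conjugates of `b` over `D / L`. -/
noncomputable def trS (D L : Subgroup (N ≃ₐ[F] N)) (b : N) : N :=
  letI := Fintype.ofFinite (D ⧸ L.subgroupOf D)
  ∑ q : D ⧸ L.subgroupOf D, ((q.out : D) : N ≃ₐ[F] N) b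

variable {D L : Subgroup (N ≃ₐ[F] N)}

theorem trS_add (a b : N) : trS D L (a + b) = trS D L a + trS D L b := by
  unfold trS
  rw [← Finset.sum_add_distrib]
  exact Finset.sum_congr rfl fun q _ => map_add _ _ _

theorem trS_mul {f : N} (hf : ∀ σ ∈ D, σ f = f) (b : N) : trS D L (f * b) = f * trS D L b := by
  unfold trS
  rw [Finset.mul_sum]
  refine Finset.sum_congr rfl fun q _ => ?_
  rw [map_mul, hf _ (q.out : D).2]

theorem trS_fix {f : N} (hf : ∀ σ ∈ D, σ f = f) : trS D L f = (L.relIndex D : N) * f := by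
  unfold trS
  let _ := Fintype.ofFinite (D ⧸ L.subgroupOf D)
  have h1 : ∀ q ∈ (Finset.univ : Finset (D ⧸ L.subgroupOf D)),
      ((q.out : D) : N ≃ₐ[F] N) f = f := fun q _ => hf _ (q.out : D).2
  rw [Finset.sum_congr rfl h1, Finset.sum_const, nsmul_eq_mul, Finset.card_univ]
  congr 1
  rw [Subgroup.relIndex, Subgroup.index, Nat.card_eq_fintype_card]

/-- The trace of an element fixed by `L` is fixed by `D`. -/
theorem trS_fixed {b : N} (hb : ∀ σ ∈ L, σ b = b) : ∀ σ ∈ D, σ (trS D L b) = trS D L b := by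
  intro σ hσ
  unfold trS
  let _ := Fintype.ofFinite (D ⧸ L.subgroupOf D)
  rw [map_sum]
  let s : D := ⟨σ, hσ⟩
  -- representatives of the same class give the same conjugate
  have h1 : ∀ a c : D, (a : D ⧸ L.subgroupOf D) = (c : D ⧸ L.subgroupOf D) →
      (a : N ≃ₐ[F] N) b = (c : N ≃ₐ[F] N) b := by
    intro a c hac
    rw [QuotientGroup.eq, Subgroup.mem_subgroupOf] at hac
    have h2 := hb _ hac
    have h3 : ((c : D) : N ≃ₐ[F] N) = (a : N ≃ₐ[F] N) * ((a⁻¹ * c : D) : N ≃ₐ[F] N) := by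
      push_cast
      rw [mul_inv_cancel_left]
    rw [h3, AlgEquiv.mul_apply, h2]
  refine Fintype.sum_equiv (MulAction.toPerm s : Equiv.Perm (D ⧸ L.subgroupOf D)) _ _ fun q => ?_
  have h4 : (((s • q).out : D) : D ⧸ L.subgroupOf D) = ((s * q.out : D) : D ⧸ L.subgroupOf D) := by
    rw [QuotientGroup.out_eq']
    conv_lhs => rw [← QuotientGroup.out_eq' q]
    rfl
  have h5 := h1 _ _ h4
  rw [MulAction.toPerm_apply, h5]
  push_cast
  rw [AlgEquiv.mul_apply]

/-- Closure under sums. -/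
theorem trS_mem {b : N} (S : AddSubmonoid N) (h : ∀ σ ∈ D, σ b ∈ S) : trS D L b ∈ S := by
  unfold trS
  exact AddSubmonoid.sum_mem _ fun q _ => h _ (q.out : D).2

end Pool.Agent.ALL6
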