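import Pool.Agent.Lib.LU1_h15.GalDefs
import Mathlib.FieldTheory.Relrank
import Mathlib.FieldTheory.Galois.Basic

/-!
# The degree of `fixO K N L` over `fixO K N G`
-/

set_option autoImplicit false

namespace Pool.Agent.ALL6

open Pool.Agent.LU1 (fixO mem_fixO)

universe u

variable {k Ω : Type u} [Field k] [Field Ω] [Algebra k Ω]
  {K : IntermediateField k Ω} {N : IntermediateField K Ω}

theorem fixO_mono {G L : Subgroup (N ≃ₐ[K] N)} (h : L ≤ G) : fixO K N G ≤ fixO K N L := by
  intro a ha
  obtain ⟨n, rfl, hn⟩ := (mem_fixO K N G a).1 ha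
  exact (mem_fixO K N L _).2 ⟨n, rfl, fun σ hσ => hn σ (h hσ)⟩

theorem relfinrank_fixO [FiniteDimensional K N] {G L : Subgroup (N ≃ₐ[K] N)} (h : L ≤ G) :
    IntermediateField.relfinrank (fixO K N G) (fixO K N L) = L.relIndex G := by
  have h1 : IntermediateField.relfinrank (fixO K N G) (fixO K N L) =
      IntermediateField.relfinrank ((IntermediateField.fixedField G).map N.val)
        ((IntermediateField.fixedField L).map N.val) := rfl
  rw [h1, IntermediateField.relfinrank_map_map]
  have h2 := IntermediateField.relfinrank_mul_finrank_top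
    (IntermediateField.fixedField_antitone h)
  rw [IntermediateField.finrank_fixedField_eq_card, IntermediateField.finrank_fixedField_eq_card]
    at h2
  have h3 : Nat.card L * L.relIndex G = Nat.card G := by
    rw [← Subgroup.relIndex_bot_left, ← Subgroup.relIndex_bot_left]
    exact Subgroup.relIndex_mul_relIndex _ _ _ bot_le h
  have h4 : 0 < Nat.card L := Nat.card_pos
  rw [mul_comm, ← h3] at h2
  exact Nat.eq_of_mul_eq_mul_left h4 h2

theorem exists_bridge [FiniteDimensional K N] {G L : Subgroup (N ≃ₐ[K] N)} (h : L ≤ G) :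
    ∃ L' : IntermediateField (fixO K N G) Ω, (∀ a, a ∈ L' ↔ a ∈ fixO K N L) ∧
      FiniteDimensional (fixO K N G) L' ∧ Module.finrank (fixO K N G) L' = L.relIndex G := by
  have h1 := IntermediateField.relfinrank_eq_finrank_of_le (fixO_mono h)
  rw [relfinrank_fixO h] at h1
  refine ⟨IntermediateField.extendScalars (fixO_mono h), fun a => Iff.rfl, ?_, h1.symm⟩
  apply FiniteDimensional.of_finrank_pos
  rw [← h1, Nat.pos_iff_ne_zero, Subgroup.relIndex]
  exact Subgroup.index_ne_zero_of_finite

end Pool.Agent.ALL6
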