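import Mathlib

/-!
# Separability elements and the extension of derivations (row Z0 of PROJECT ALL)

`t ∈ E ⊗[F] E` with `(1 ⊗ s) t = (s ⊗ 1) t` for all `s` and `μ t = 1`.  It exists, with components in
an essentially finite algebra `A` over `O`, as soon as every element of `A` is a sum of products of
elements of `O` and of `p`-th powers of elements of `A`.  If the components of `t` are in a ring `C`
of fractions of the integral closure of `S` in `E`, the derivations of `E` which preserve `S`
preserve `C`.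
-/

set_option autoImplicit false

open TensorProduct

namespace Pool.Agent.ALL6

section Exists

variable {O A : Type*} [CommRing O] [CommRing A] [Algebra O A]

/-- If every element of `A` is a sum of products of elements of `O` and of `p`-th powers, then
`Ω_{A/O} = 0`. -/
theorem subsingleton_kaehler (p : ℕ) [CharP A p]
    (hcoord : ∀ a : A, a ∈ AddSubgroup.closure {x | ∃ (z : O) (c : A), x = algebraMap O A z * c ^ p}) :
    Subsingleton (Ω[A⁄O]) := by
  have h1 : ∀ a : A, KaehlerDifferential.D O A a = 0 := by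
    intro a
    induction hcoord a using AddSubgroup.closure_induction with
    | mem x hx =>
      obtain ⟨z, c, rfl⟩ := hx
      rw [Derivation.leibniz, Derivation.map_algebraMap, smul_zero, add_zero,
        Derivation.leibniz_pow, ← Nat.cast_smul_eq_nsmul A, CharP.cast_eq_zero, zero_smul, smul_zero]
    | zero => exact map_zero _
    | add x y _ _ hx hy => rw [map_add, hx, hy, add_zero]
    | neg x _ hx => rw [map_neg, hx, neg_zero]
  have h2 : (⊤ : Submodule A (Ω[A⁄O])) = ⊥ := by
    rw [← KaehlerDifferential.span_range_derivation, Submodule.span_eq_bot]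
    rintro _ ⟨a, rfl⟩
    exact h1 a
  exact (Submodule.subsingleton_iff A).1 (subsingleton_of_bot_eq_top h2.symm)

/-- The separability element of `A` over `O`. -/
theorem exists_elem (p : ℕ) [CharP A p] [Algebra.EssFiniteType O A]
    (hcoord : ∀ a : A, a ∈ AddSubgroup.closure {x | ∃ (z : O) (c : A), x = algebraMap O A z * c ^ p}) :
    ∃ t : A ⊗[O] A, (∀ s : A, ((1 : A) ⊗ₜ[O] s) * t = (s ⊗ₜ[O] (1 : A)) * t) ∧
      Algebra.TensorProduct.lmul' O t = 1 := by
  have h1 : Algebra.FormallyUnramified O A := ⟨subsingleton_kaehler p hcoord⟩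
  obtain ⟨t, ht1, ht2⟩ := Algebra.FormallyUnramified.iff_exists_tensorProduct.1 h1
  refine ⟨t, fun s => ?_, ht2⟩
  have := ht1 s
  rwa [sub_mul, sub_eq_zero] at this

end Exists

/-- A separability element of `E` over `F`, `t = ∑ a i ⊗ b i`. -/
structure Sep (F E : Type*) [CommRing F] [CommRing E] [Algebra F E] {ι : Type*} [Fintype ι]
    (a b : ι → E) : Prop where
  mul_one' : ∑ i, a i * b i = 1
  comm' : ∀ s : E, ∑ i, a i ⊗ₜ[F] (s * b i) = ∑ i, (s * a i) ⊗ₜ[F] b i

section Map

variable {F E : Type*} [Field F] [Field E] [Algebra F E]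

/-- Z0a: the separability element of `E/F` from a subring `A` of `E` with fraction field `E`. -/
theorem exists_sep (p : ℕ) {O A : Type*} [CommRing O] [CommRing A] [Algebra O A] [CharP A p]
    [Algebra.EssFiniteType O A] [Algebra O F] [Algebra A E] [Algebra O E] [IsScalarTower O F E]
    [IsScalarTower O A E]
    (hcoord : ∀ a : A, a ∈ AddSubgroup.closure {x | ∃ (z : O) (c : A), x = algebraMap O A z * c ^ p})
    (hfrac : ∀ e : E, ∃ a s : A, algebraMap A E s ≠ 0 ∧ e = algebraMap A E a / algebraMap A E s) :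
    ∃ (n : ℕ) (a b : Fin n → A), Sep F E (fun i => algebraMap A E (a i))
      (fun i => algebraMap A E (b i)) := by
  obtain ⟨t, ht1, ht2⟩ := exists_elem (O := O) p hcoord
  obtain ⟨n, a, b, rfl⟩ : ∃ (n : ℕ) (a b : Fin n → A), t = ∑ i, a i ⊗ₜ[O] b i := by
    clear ht1 ht2
    induction t using TensorProduct.induction_on with
    | zero => exact ⟨0, Fin.elim0, Fin.elim0, by simp⟩
    | tmul x y => exact ⟨1, fun _ => x, fun _ => y, by simp⟩
    | add x y hx hy =>
      obtain ⟨n, a, b, rfl⟩ := hx
      obtain ⟨m, c, d, rfl⟩ := hy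
      refine ⟨n + m, Fin.append a c, Fin.append b d, ?_⟩
      rw [Fin.sum_univ_add]
      simp
  refine ⟨n, a, b, ?_, ?_⟩
  · have := congrArg (algebraMap A E) ht2
    simpa using this
  · -- the map `A ⊗[O] A → E ⊗[F] E`
    let φ : A ⊗[O] A →ₐ[O] E ⊗[F] E := Algebra.TensorProduct.lift
      ((Algebra.TensorProduct.includeLeft (R := F) (S := F) (A := E) (B := E)).restrictScalars O
        |>.comp (IsScalarTower.toAlgHom O A E))
      ((Algebra.TensorProduct.includeRight (R := F) (A := E) (B := E)).restrictScalars O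
        |>.comp (IsScalarTower.toAlgHom O A E)) (fun _ _ => Commute.all _ _)
    have hφ : ∀ x y : A, φ (x ⊗ₜ y) = algebraMap A E x ⊗ₜ[F] algebraMap A E y := by
      intro x y
      simp [φ]
    have hA : ∀ s : A, ∑ i, algebraMap A E (a i) ⊗ₜ[F] (algebraMap A E s * algebraMap A E (b i)) =
        ∑ i, (algebraMap A E s * algebraMap A E (a i)) ⊗ₜ[F] algebraMap A E (b i) := by
      intro s
      have h1 := congrArg φ (ht1 s)
      rw [Finset.mul_sum, Finset.mul_sum, map_sum, map_sum] at h1
      simp only [Algebra.TensorProduct.tmul_mul_tmul, one_mul, hφ, map_mul] at h1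
      exact h1
    intro e
    obtain ⟨x, s, hs, rfl⟩ := hfrac e
    set X := algebraMap A E x
    set S := algebraMap A E s
    -- multiply by `1 / S ⊗ 1 / S`
    have h2 : ∀ i, algebraMap A E (a i) ⊗ₜ[F] (X / S * algebraMap A E (b i)) =
        (1 : E) ⊗ₜ[F] S⁻¹ * (algebraMap A E (a i) ⊗ₜ[F] (X * algebraMap A E (b i))) := by
      intro i
      rw [Algebra.TensorProduct.tmul_mul_tmul, one_mul]
      congr 1
      rw [div_eq_mul_inv]; ring
    have h3 : ∑ i, (S * (S⁻¹ * algebraMap A E (a i))) ⊗ₜ[F] (S⁻¹ * algebraMap A E (b i)) =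
        ∑ i, (S⁻¹ * algebraMap A E (a i)) ⊗ₜ[F] (S * (S⁻¹ * algebraMap A E (b i))) := by
      have h4 := congrArg (fun T => (S⁻¹ ⊗ₜ[F] S⁻¹) * T) (hA s)
      simp only [Finset.mul_sum, Algebra.TensorProduct.tmul_mul_tmul] at h4
      refine Eq.trans ?_ (h4.symm.trans ?_)
      · refine Finset.sum_congr rfl fun i _ => ?_
        rw [mul_left_comm]
      · refine Finset.sum_congr rfl fun i _ => ?_
        rw [mul_left_comm]
    calc ∑ i, algebraMap A E (a i) ⊗ₜ[F] (X / S * algebraMap A E (b i))
        = (1 : E) ⊗ₜ[F] S⁻¹ * ∑ i, (algebraMap A E (a i) ⊗ₜ[F] (X * algebraMap A E (b i))) := by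
          rw [Finset.mul_sum]
          exact Finset.sum_congr rfl fun i _ => h2 i
      _ = (1 : E) ⊗ₜ[F] S⁻¹ * ∑ i, (X * algebraMap A E (a i)) ⊗ₜ[F] algebraMap A E (b i) := by
          rw [hA x]
      _ = (X ⊗ₜ[F] 1) * ∑ i, (algebraMap A E (a i)) ⊗ₜ[F] (S⁻¹ * algebraMap A E (b i)) := by
          rw [Finset.mul_sum, Finset.mul_sum]
          refine Finset.sum_congr rfl fun i _ => ?_
          rw [Algebra.TensorProduct.tmul_mul_tmul, Algebra.TensorProduct.tmul_mul_tmul, one_mul,
            one_mul]
      _ = (X ⊗ₜ[F] 1) * ∑ i, (S⁻¹ * algebraMap A E (a i)) ⊗ₜ[F] (algebraMap A E (b i)) := by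
          congr 1
          refine Eq.trans ?_ (h3.trans ?_)
          · refine Finset.sum_congr rfl fun i _ => ?_
            rw [mul_inv_cancel_left₀ hs]
          · refine Finset.sum_congr rfl fun i _ => ?_
            rw [mul_inv_cancel_left₀ hs]
      _ = _ := by
          rw [Finset.mul_sum]
          refine Finset.sum_congr rfl fun i _ => ?_
          rw [Algebra.TensorProduct.tmul_mul_tmul, one_mul]
          congr 1
          rw [div_eq_mul_inv]; ring

end Map

section Deriv

variable {F E : Type*} [Field F] [Field E] [Algebra F E] {ι : Type*} [Fintype ι] {a b : ι → E}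

/-- Move a denominator from `b` to `a`. -/
theorem Sep.scale (h : Sep F E a b) {s : E} (hs : s ≠ 0) :
    Sep F E (fun i => s⁻¹ * a i) (fun i => s * b i) := by
  refine ⟨?_, fun c => ?_⟩
  · rw [← h.mul_one']
    refine Finset.sum_congr rfl fun i _ => ?_
    field_simp
  · have key : ∀ c : E, ∑ i, (s⁻¹ * a i) ⊗ₜ[F] (c * b i) = ∑ i, (c * (s⁻¹ * a i)) ⊗ₜ[F] b i := by
      intro c
      have h1 := congrArg (fun T => (s⁻¹ ⊗ₜ[F] (1 : E)) * T) (h.comm' c)
      simp only [Finset.mul_sum, Algebra.TensorProduct.tmul_mul_tmul, one_mul] at h1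
      rw [h1]
      refine Finset.sum_congr rfl fun i _ => ?_
      rw [mul_left_comm]
    have h2 : ∑ i, (s⁻¹ * a i) ⊗ₜ[F] (c * (s * b i)) = ∑ i, ((c * s) * (s⁻¹ * a i)) ⊗ₜ[F] b i := by
      rw [← key (c * s)]
      refine Finset.sum_congr rfl fun i _ => ?_
      rw [mul_assoc]
    have h3 : ∑ i, (c * (s⁻¹ * a i)) ⊗ₜ[F] (s * b i) = (c ⊗ₜ[F] (1 : E)) *
        ∑ i, ((s⁻¹ * a i)) ⊗ₜ[F] (s * b i) := by
      rw [Finset.mul_sum]
      refine Finset.sum_congr rfl fun i _ => ?_
      rw [Algebra.TensorProduct.tmul_mul_tmul, one_mul]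
    rw [h2, h3, key s, Finset.mul_sum]
    refine Finset.sum_congr rfl fun i _ => ?_
    rw [Algebra.TensorProduct.tmul_mul_tmul, one_mul, mul_assoc]

/-- The trace formula `∑ a i * Tr (b i * c) = c`. -/
theorem Sep.trace [FiniteDimensional F E] [Algebra.IsSeparable F E] (h : Sep F E a b) (c : E) :
    ∑ i, a i * algebraMap F E (Algebra.trace F E (b i * c)) = c := by
  classical
  let Ω := AlgebraicClosure E
  have hinj : Function.Injective (algebraMap E Ω) := (algebraMap E Ω).injective
  apply hinj
  rw [map_sum]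
  let ι₀ : E →ₐ[F] Ω := IsScalarTower.toAlgHom F E Ω
  have hι₀ : ∀ x, ι₀ x = algebraMap E Ω x := fun _ => rfl
  have h1 : ∀ x : E, algebraMap E Ω (algebraMap F E (Algebra.trace F E x)) =
      ∑ σ : E →ₐ[F] Ω, σ x := by
    intro x
    rw [← IsScalarTower.algebraMap_apply F E Ω]
    exact trace_eq_sum_embeddings Ω
  have h2 : ∀ σ : E →ₐ[F] Ω, (∑ i, algebraMap E Ω (a i) * σ (b i)) = if σ = ι₀ then 1 else 0 := by
    intro σ
    split_ifs with hσ
    · subst hσ
      have := congrArg (algebraMap E Ω) h.mul_one'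
      simpa [hι₀] using this
    · obtain ⟨s, hs⟩ : ∃ s, σ s ≠ algebraMap E Ω s := by
        by_contra hcon
        push Not at hcon
        exact hσ (AlgHom.ext fun s => (hcon s).trans (hι₀ s).symm)
      let φ : E ⊗[F] E →ₐ[F] Ω := Algebra.TensorProduct.productMap ι₀ σ
      have hφ : ∀ x y : E, φ (x ⊗ₜ y) = algebraMap E Ω x * σ y := by
        intro x y
        simp [φ, hι₀]
      have h3 := congrArg φ (h.comm' s)
      rw [map_sum, map_sum] at h3
      simp only [hφ, map_mul] at h3
      have h4 : (σ s - algebraMap E Ω s) * (∑ i, algebraMap E Ω (a i) * σ (b i)) = 0 := by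
        rw [sub_mul, Finset.mul_sum, Finset.mul_sum, sub_eq_zero]
        refine Eq.trans ?_ (h3.trans ?_)
        · refine Finset.sum_congr rfl fun i _ => ?_
          ring
        · refine Finset.sum_congr rfl fun i _ => ?_
          ring
      rcases mul_eq_zero.1 h4 with h5 | h5
      · exact absurd (sub_eq_zero.1 h5) hs
      · exact h5
  calc ∑ i, algebraMap E Ω (a i * algebraMap F E (Algebra.trace F E (b i * c)))
      = ∑ i, ∑ σ : E →ₐ[F] Ω, (algebraMap E Ω (a i) * σ (b i)) * σ c := by
        refine Finset.sum_congr rfl fun i _ => ?_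
        rw [map_mul, h1, Finset.mul_sum]
        refine Finset.sum_congr rfl fun σ _ => ?_
        rw [map_mul, mul_assoc]
    _ = ∑ σ : E →ₐ[F] Ω, (∑ i, algebraMap E Ω (a i) * σ (b i)) * σ c := by
        rw [Finset.sum_comm]
        refine Finset.sum_congr rfl fun σ _ => ?_
        rw [Finset.sum_mul]
    _ = ∑ σ : E →ₐ[F] Ω, (if σ = ι₀ then σ c else 0) := by
        refine Finset.sum_congr rfl fun σ _ => ?_
        rw [h2 σ]
        split_ifs <;> simp
    _ = algebraMap E Ω c := by
        rw [Finset.sum_ite_eq' Finset.univ ι₀ (fun σ => σ c)]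
        simp [hι₀]

/-- An `F`-linear operator. -/
theorem Sep.linear (h : Sep F E a b) (Λ : E →ₗ[F] E) (c : E) :
    ∑ i, a i * Λ (c * b i) = c * ∑ i, a i * Λ (b i) := by
  let φ : E ⊗[F] E →ₗ[F] E := (LinearMap.mul' F E).comp (TensorProduct.map LinearMap.id Λ)
  have h1 := congrArg φ (h.comm' c)
  rw [map_sum, map_sum] at h1
  simp only [φ, LinearMap.comp_apply, TensorProduct.map_tmul, LinearMap.id_apply,
    LinearMap.mul'_apply] at h1
  rw [h1, Finset.mul_sum]
  refine Finset.sum_congr rfl fun i _ => ?_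
  rw [mul_assoc]

/-- The formula for a derivation of `E` in terms of its values on `F`. -/
theorem Sep.deriv [FiniteDimensional F E] [Algebra.IsSeparable F E] (h : Sep F E a b)
    (d : Derivation ℤ E E) (c : E) :
    d c = ∑ i, a i * ((∑ j, d (algebraMap F E (Algebra.trace F E (b j * (c * b i)))) * a j) -
      c * ∑ j, d (algebraMap F E (Algebra.trace F E (b j * b i))) * a j) := by
  -- `L - d` is `F`-linear
  let L : E → E := fun x => ∑ j, d (algebraMap F E (Algebra.trace F E (b j * x))) * a j
  have hLadd : ∀ x y, L (x + y) = L x + L y := by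
    intro x y
    simp only [L]
    rw [← Finset.sum_add_distrib]
    refine Finset.sum_congr rfl fun j _ => ?_
    rw [mul_add, map_add, map_add, map_add, add_mul]
  have hLsmul : ∀ (f : F) (x : E), L (f • x) = algebraMap F E f * L x + d (algebraMap F E f) * x := by
    intro f x
    have h1 : ∀ j, d (algebraMap F E (Algebra.trace F E (b j * f • x))) * a j =
        algebraMap F E f * (d (algebraMap F E (Algebra.trace F E (b j * x))) * a j) +
          d (algebraMap F E f) * (a j * algebraMap F E (Algebra.trace F E (b j * x))) := by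
      intro j
      rw [mul_smul_comm, map_smul, smul_eq_mul, map_mul, Derivation.leibniz, smul_eq_mul,
        smul_eq_mul]
      ring
    simp only [L]
    rw [Finset.sum_congr rfl fun j _ => h1 j, Finset.sum_add_distrib, ← Finset.mul_sum,
      ← Finset.mul_sum, h.trace]
  let Λ : E →ₗ[F] E :=
    { toFun := fun x => L x - d x
      map_add' := fun x y => by rw [hLadd, map_add]; ring
      map_smul' := fun f x => by
        rw [hLsmul, RingHom.id_apply, Algebra.smul_def, Algebra.smul_def, Derivation.leibniz,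
          smul_eq_mul, smul_eq_mul]
        ring }
  have hΛ : ∀ x, Λ x = L x - d x := fun _ => rfl
  have h2 := h.linear Λ c
  simp only [hΛ] at h2
  -- expand
  have h3 : ∑ i, a i * (L (c * b i) - d (c * b i)) =
      ∑ i, a i * (L (c * b i) - c * d (b i)) - d c := by
    have : ∀ i, a i * (L (c * b i) - d (c * b i)) =
        a i * (L (c * b i) - c * d (b i)) - (a i * b i) * d c := by
      intro i
      rw [Derivation.leibniz, smul_eq_mul, smul_eq_mul]
      ring
    rw [Finset.sum_congr rfl fun i _ => this i, Finset.sum_sub_distrib, ← Finset.sum_mul,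
      h.mul_one', one_mul]
  rw [h3] at h2
  have h4 : d c = ∑ i, a i * (L (c * b i) - c * d (b i)) - c * ∑ i, a i * (L (b i) - d (b i)) := by
    rw [← h2]; ring
  rw [h4, Finset.mul_sum, ← Finset.sum_sub_distrib]
  refine Finset.sum_congr rfl fun i _ => ?_
  simp only [L]
  ring

/-- Z0b: the derivations of `E` which preserve the integrally closed subring `S` of `F` preserve
the ring of fractions `C` of the integral closure of `S` in `E`, if the components of a separability
element are in `C`. -/
theorem Sep.deriv_mem [FiniteDimensional F E] [Algebra.IsSeparable F E] (h : Sep F E a b)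
    (d : Derivation ℤ E E) (S : Subring F) (hS : ∀ f : F, IsIntegral S f → f ∈ S)
    (hdS : ∀ f ∈ S, ∃ g ∈ S, d (algebraMap F E f) = algebraMap F E g)
    (C : Subring E) (hC1 : ∀ x : E, IsIntegral S x → x ∈ C)
    (hC2 : ∀ x ∈ C, ∃ s y : E, IsIntegral S s ∧ IsIntegral S y ∧ s ≠ 0 ∧ s⁻¹ ∈ C ∧ x = y / s)
    (ha : ∀ i, a i ∈ C) (hb : ∀ i, b i ∈ C) : ∀ c ∈ C, d c ∈ C := by
  classical
  -- clear the denominators of the `b i`
  choose! s y hs hy hs0 hsi hxy using hC2
  let s₀ : E := ∏ i, s (b i)
  have hs₀0 : s₀ ≠ 0 := Finset.prod_ne_zero_iff.2 fun i _ => hs0 _ (hb i)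
  have hs₀i : s₀⁻¹ ∈ C := by
    rw [← Finset.prod_inv_distrib]
    exact Subring.prod_mem _ fun i _ => hsi _ (hb i)
  have hint : ∀ i, IsIntegral S (s₀ * b i) := by
    intro i
    have h1 : s₀ * b i = (∏ j ∈ Finset.univ.erase i, s (b j)) * y (b i) := by
      have h2 : b i = y (b i) / s (b i) := hxy _ (hb i)
      have h3 : s₀ = (∏ j ∈ Finset.univ.erase i, s (b j)) * s (b i) := by
        rw [mul_comm]
        exact (Finset.mul_prod_erase _ _ (Finset.mem_univ i)).symm
      calc s₀ * b i = (∏ j ∈ Finset.univ.erase i, s (b j)) * s (b i) * (y (b i) / s (b i)) := by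
            rw [← h3, ← h2]
        _ = _ := by
            have := hs0 _ (hb i)
            field_simp
    rw [h1]
    exact (IsIntegral.prod _ fun j _ => hs _ (hb j)).mul (hy _ (hb i))
  have h' := h.scale hs₀0
  have ha' : ∀ i, s₀⁻¹ * a i ∈ C := fun i => C.mul_mem hs₀i (ha i)
  have hintE : ∀ x : E, IsIntegral S x → Algebra.trace F E x ∈ S := by
    intro x hx
    apply hS
    exact Algebra.isIntegral_trace hx
  have hmemC : ∀ x : E, IsIntegral S x → d (algebraMap F E (Algebra.trace F E x)) ∈ C := by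
    intro x hx
    obtain ⟨g, hg, hdg⟩ := hdS _ (hintE x hx)
    rw [hdg]
    apply hC1
    have : IsIntegral S (⟨g, hg⟩ : S) := isIntegral_algebraMap
    have h4 := isIntegral_algebraMap (R := S) (A := E) (x := ⟨g, hg⟩)
    exact h4
  have key : ∀ c : E, IsIntegral S c → d c ∈ C := by
    intro c hc
    rw [h'.deriv d c]
    refine Subring.sum_mem _ fun i _ => C.mul_mem (ha' i) (C.sub_mem ?_ (C.mul_mem (hC1 c hc) ?_))
    · exact Subring.sum_mem _ fun j _ => C.mul_mem (hmemC _ ((hint j).mul (hc.mul (hint i))))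
        (ha' j)
    · exact Subring.sum_mem _ fun j _ => C.mul_mem (hmemC _ ((hint j).mul (hint i))) (ha' j)
  intro c hc
  have h5 : c * s c = y c := by
    have := hxy c hc
    have h0 := hs0 c hc
    calc c * s c = y c / s c * s c := by rw [← this]
      _ = y c := div_mul_cancel₀ _ h0
  have h6 : c * d (s c) + s c * d c = d (y c) := by
    rw [← h5, Derivation.leibniz, smul_eq_mul, smul_eq_mul]
  have h7 : d c = (s c)⁻¹ * (d (y c) - c * d (s c)) := by
    rw [← h6, add_sub_cancel_left, inv_mul_cancel_left₀ (hs0 c hc)]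
  rw [h7]
  exact C.mul_mem (hsi c hc) (C.sub_mem (key _ (hy c hc)) (C.mul_mem hc (key _ (hs c hc))))

end Deriv

end Pool.Agent.ALL6
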