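import Pool.Agent.Lib.TAO.Basic

/-!
# Rows L4 and L5 of block Z of PROJECT ALL

`K/F` is an extension with one valuation `W` and a trace whose average is invertible modulo `p`.

* L4: `A = R + J`.
* L5: representatives `a i` of the values modulo those of `F` form a basis of `K`, and the elements
  of `A[1/χ]` have coordinates in `R[1/χ]`.
-/

set_option autoImplicit false

namespace Pool.Agent.ALL6

open Pool.Agent.TAO (OVal VPos)

section L4

variable {𝕂 : Type*} [Field 𝕂] [LinearOrder 𝕂] [IsStrictOrderedRing 𝕂] {K : Type*} [Field K]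
  {W : OVal 𝕂 K}

/-- Row L4. `avg` is the average; `YJ n` is the set `(y)^n A + J`. -/
theorem l4 {D : ℕ} (A F : Subring K) (y : Fin D → K) (Cst : Set K) (avg : K → K) (YJ : ℕ → K → Prop)
    (hy : ∀ i, y i ∈ F) (hCF : ∀ c ∈ Cst, c ∈ F)
    (hadd : ∀ a b, avg (a + b) = avg a + avg b)
    (hmul : ∀ f ∈ F, ∀ a, avg (f * a) = f * avg a) (hone : avg 1 = 1)
    (hA : ∀ a ∈ A, avg a ∈ A ∧ avg a ∈ F) (hpos : ∀ a ∈ A, VPos W a → VPos W (avg a))
    (hm : ∀ a ∈ A, ∃ c ∈ Cst, c ∈ A ∧ ∃ b : Fin D → K, (∀ i, b i ∈ A) ∧ ∃ j ∈ A, VPos W j ∧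
      a = c + (∑ i, y i * b i + j))
    (hc : ∀ c ∈ Cst, ∀ b : Fin D → K, (∀ i, b i ∈ A) → ∀ j ∈ A, VPos W j →
      c = ∑ i, y i * b i + j → c = 0)
    (h0 : ∀ a ∈ A, YJ 0 a)
    (hs : ∀ n (b : Fin D → K) j, (∀ i, b i ∈ A) → (∀ i, YJ n (b i)) → j ∈ A → VPos W j →
      YJ (n + 1) (∑ i, y i * b i + j))
    (hK : ∀ a ∈ A, (∀ n, YJ n a) → VPos W a) : ∀ a ∈ A, VPos W (a - avg a) := by
  have hF : ∀ f ∈ F, avg f = f := by
    intro f hf
    have := hmul f hf 1
    rwa [mul_one, hone, mul_one] at this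
  have hneg : ∀ a, avg (-a) = - avg a := by
    intro a
    have := hmul (-1) (F.neg_mem F.one_mem) a
    simpa using this
  have hsub : ∀ a b, avg (a - b) = avg a - avg b := by
    intro a b
    rw [sub_eq_add_neg, hadd, hneg, sub_eq_add_neg]
  have hsum : ∀ (b : Fin D → K), avg (∑ i, y i * b i) = ∑ i, y i * avg (b i) := by
    intro b
    have h1 : ∀ s : Finset (Fin D), avg (∑ i ∈ s, y i * b i) = ∑ i ∈ s, y i * avg (b i) := by
      classical
      intro s
      induction s using Finset.induction_on with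
      | empty =>
        rw [Finset.sum_empty, Finset.sum_empty]
        exact hF 0 F.zero_mem
      | insert i s hi ih =>
        rw [Finset.sum_insert hi, Finset.sum_insert hi, hadd, ih, hmul _ (hy i)]
    exact h1 _
  -- the elements of average zero
  have key : ∀ n, ∀ a ∈ A, avg a = 0 → YJ n a := by
    intro n
    induction n with
    | zero => exact fun a ha _ => h0 a ha
    | succ n ih =>
      intro a ha hav
      obtain ⟨c, hcC, hcA, b, hb, j, hj, hjp, hab⟩ := hm a ha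
      have h1 : c = ∑ i, y i * (-avg (b i)) + -avg j := by
        have h2 : avg a = c + (∑ i, y i * avg (b i) + avg j) := by
          rw [hab, hadd, hadd, hsum, hF c (hCF c hcC)]
        rw [hav] at h2
        have h3 : ∑ i, y i * (-avg (b i)) = - ∑ i, y i * avg (b i) := by
          rw [← Finset.sum_neg_distrib]
          exact Finset.sum_congr rfl fun i _ => by ring
        rw [h3]
        linear_combination -h2
      have hc0 : c = 0 := hc c hcC _ (fun i => A.neg_mem (hA _ (hb i)).1) _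
        (A.neg_mem (hA _ hj).1) (hpos _ hj hjp).neg h1
      have h4 : a = ∑ i, y i * (b i - avg (b i)) + (j - avg j) := by
        have h5 : ∑ i, y i * (b i - avg (b i)) = ∑ i, y i * b i - ∑ i, y i * avg (b i) := by
          rw [← Finset.sum_sub_distrib]
          exact Finset.sum_congr rfl fun i _ => by ring
        have h6 : ∑ i, y i * avg (b i) + avg j = 0 := by
          have h2 : avg a = c + (∑ i, y i * avg (b i) + avg j) := by
            rw [hab, hadd, hadd, hsum, hF c (hCF c hcC)]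
          rw [hav, hc0, zero_add] at h2
          exact h2.symm
        rw [h5, hab, hc0]
        linear_combination h6
      rw [h4]
      refine hs n _ _ (fun i => A.sub_mem (hb i) (hA _ (hb i)).1) (fun i => ih _
        (A.sub_mem (hb i) (hA _ (hb i)).1) ?_) (A.sub_mem hj (hA _ hj).1) (hjp.sub (hpos _ hj hjp))
      rw [hsub, hF _ (hA _ (hb i)).2, sub_self]
  intro a ha
  refine hK _ (A.sub_mem ha (hA a ha).1) fun n => key n _ (A.sub_mem ha (hA a ha).1) ?_
  rw [hsub, hF _ (hA a ha).2, sub_self]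

end L4

section Sums

variable {𝕂 : Type*} [Field 𝕂] [LinearOrder 𝕂] [IsStrictOrderedRing 𝕂] {K : Type*} [Field K]
  {W : OVal 𝕂 K}

/-- A sum of elements of positive value. -/
theorem vpos_sum {ι : Type*} (s : Finset ι) (f : ι → K) (h : ∀ i ∈ s, VPos W (f i)) :
    VPos W (∑ i ∈ s, f i) := by
  classical
  induction s using Finset.induction_on with
  | empty => rw [Finset.sum_empty]; exact TAO.VPos.zero
  | insert a s ha ih =>
    rw [Finset.sum_insert ha]
    exact (h a (Finset.mem_insert_self a s)).add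
      (ih fun i hi => h i (Finset.mem_insert_of_mem hi))

/-- The value of a sum of elements of different values is the minimum. -/
theorem sum_min {ι : Type*} (s : Finset ι) (hs : s.Nonempty) (f : ι → K)
    (hf : ∀ i ∈ s, f i ≠ 0) (hinj : ∀ i ∈ s, ∀ j ∈ s, i ≠ j → W (f i) ≠ W (f j)) :
    ∑ i ∈ s, f i ≠ 0 ∧ (∃ i ∈ s, W (∑ i ∈ s, f i) = W (f i)) ∧
      ∀ i ∈ s, W (∑ i ∈ s, f i) ≤ W (f i) := by
  classical
  induction hs using Finset.Nonempty.cons_induction with
  | singleton a =>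
    rw [Finset.sum_singleton]
    refine ⟨hf a (Finset.mem_singleton_self a), ⟨a, Finset.mem_singleton_self a, rfl⟩, ?_⟩
    intro i hi
    rw [Finset.mem_singleton.1 hi]
  | cons a s ha hs ih =>
    obtain ⟨h1, ⟨i, hi, h2⟩, h3⟩ := ih (fun i hi => hf i (Finset.mem_cons_of_mem hi))
      (fun i hi j hj => hinj i (Finset.mem_cons_of_mem hi) j (Finset.mem_cons_of_mem hj))
    rw [Finset.sum_cons]
    have ha' : a ∈ Finset.cons a s ha := Finset.mem_cons_self a s
    have hi' : i ∈ Finset.cons a s ha := Finset.mem_cons_of_mem hi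
    have hai : a ≠ i := fun h0 => ha (h0 ▸ hi)
    rcases lt_or_gt_of_ne (hinj a ha' i hi' hai) with h4 | h4
    · have h5 := W.add_of_lt (hf a ha') h1 (by rw [h2]; exact h4)
      refine ⟨h5.1, ⟨a, ha', h5.2⟩, ?_⟩
      intro j hj
      rw [h5.2]
      rcases Finset.mem_cons.1 hj with rfl | hj
      · exact le_rfl
      · exact h4.le.trans (h2 ▸ h3 j hj)
    · have h5 := W.add_of_lt h1 (hf a ha') (by rw [h2]; exact h4)
      rw [add_comm] at h5
      refine ⟨h5.1, ⟨i, hi', by rw [h5.2, h2]⟩, ?_⟩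
      intro j hj
      rw [h5.2]
      rcases Finset.mem_cons.1 hj with rfl | hj
      · rw [h2]; exact h4.le
      · exact h3 j hj

end Sums

section L5

variable {𝕂 : Type*} [Field 𝕂] [LinearOrder 𝕂] [IsStrictOrderedRing 𝕂] {F K : Type*} [Field F]
  [Field K] [Algebra F K]

/-- The data of row L5: `T` is the trace (`T 1 = ρ`), the valuation `W` is the only one, so
`W (T b) ≥ W b`; every residue comes from `F`; the `W (a i)` represent the values modulo `Γ`, the
group of the values of `F`. -/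
structure L5Data (W : OVal 𝕂 K) {ι : Type*} (a : ι → K) (Γ : AddSubgroup 𝕂) (T : K →ₗ[F] F)
    (ρ : F) : Prop where
  ρ_ne : ρ ≠ 0
  ρ_val : W (algebraMap F K ρ) = 0
  T_alg : ∀ f : F, T (algebraMap F K f) = ρ * f
  T_ge : ∀ b, b ≠ 0 → W.Ge (W b) (algebraMap F K (T b))
  T_pos : ∀ b, VPos W b → VPos W (algebraMap F K (T b))
  res : ∀ b : K, b ≠ 0 → W b = 0 → ∃ f : F, VPos W (b - algebraMap F K f)
  val : ∀ f : F, f ≠ 0 → W (algebraMap F K f) ∈ Γ
  val' : ∀ γ ∈ Γ, ∃ f : F, f ≠ 0 ∧ W (algebraMap F K f) = γ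
  a_ne : ∀ i, a i ≠ 0
  a_dist : ∀ i j, W (a i) - W (a j) ∈ Γ → i = j
  a_cov : ∀ b : K, b ≠ 0 → ∃ i, W b - W (a i) ∈ Γ

variable {W : OVal 𝕂 K} {ι : Type*} {a : ι → K} {Γ : AddSubgroup 𝕂} {T : K →ₗ[F] F} {ρ : F}

theorem alg_ne {f : F} (hf : f ≠ 0) : algebraMap F K f ≠ 0 := by
  simpa using hf

/-- The trace of an element whose value is in `Γ`. -/
theorem L5Data.T_val (h : L5Data W a Γ T ρ) {b : K} (hb : b ≠ 0) (hbΓ : W b ∈ Γ) :
    T b ≠ 0 ∧ W (algebraMap F K (T b)) = W b := by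
  obtain ⟨g, hg0, hg⟩ := h.val' _ hbΓ
  have hg0' : algebraMap F K g ≠ 0 := alg_ne hg0
  set c : K := b / algebraMap F K g with hc
  have hc0 : c ≠ 0 := div_ne_zero hb hg0'
  have hcv : W c = 0 := by rw [hc, W.map_div hb hg0', hg, sub_self]
  obtain ⟨f, hf⟩ := h.res c hc0 hcv
  -- `f` has value `0`
  have hf0 : algebraMap F K f ≠ 0 ∧ W (algebraMap F K f) = 0 := by
    have h1 : VPos W (algebraMap F K f - c) := by
      have := hf.neg
      rwa [neg_sub] at this
    have := TAO.val_add_vpos (v := W) hc0 hcv h1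
    rwa [add_sub_cancel] at this
  have h2 : T c = ρ * f + T (c - algebraMap F K f) := by
    rw [map_sub, h.T_alg]; ring
  have h3 : algebraMap F K (ρ * f) ≠ 0 ∧ W (algebraMap F K (ρ * f)) = 0 := by
    rw [map_mul]
    refine ⟨mul_ne_zero (alg_ne h.ρ_ne) hf0.1, ?_⟩
    rw [W.map_mul (alg_ne h.ρ_ne) hf0.1, h.ρ_val, hf0.2, add_zero]
  have h4 : algebraMap F K (T c) ≠ 0 ∧ W (algebraMap F K (T c)) = 0 := by
    rw [h2, map_add]
    exact TAO.val_add_vpos (v := W) h3.1 h3.2 (h.T_pos _ hf)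
  have h5 : b = g • c := by
    rw [Algebra.smul_def, hc]; field_simp
  have h6 : T b = g * T c := by
    rw [h5, map_smul, smul_eq_mul]
  have h7 : T c ≠ 0 := fun h0 => h4.1 (by rw [h0, map_zero])
  refine ⟨by rw [h6]; exact mul_ne_zero hg0 h7, ?_⟩
  rw [h6, map_mul, W.map_mul hg0' h4.1, h4.2, add_zero, hg]

/-- The trace of an element whose value is not in `Γ`. -/
theorem L5Data.T_gt (h : L5Data W a Γ T ρ) {b : K} (hb : b ≠ 0) (hbΓ : W b ∉ Γ)
    (hT : T b ≠ 0) : W b < W (algebraMap F K (T b)) := by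
  refine lt_of_le_of_ne (h.T_ge b hb (alg_ne hT)) ?_
  intro h0
  exact hbΓ (by rw [h0]; exact h.val _ hT)

/-- The `a i` are independent, and the value of a combination is the minimum. -/
theorem L5Data.ge (h : L5Data W a Γ T ρ) (s : Finset ι) (f : ι → F)
    (hne : ∃ i ∈ s, f i ≠ 0) :
    (∑ i ∈ s, f i • a i) ≠ 0 ∧ ∀ i ∈ s, f i ≠ 0 → W (∑ i ∈ s, f i • a i) ≤ W (f i • a i) := by
  classical
  set s' := s.filter fun i => f i ≠ 0 with hs'
  have hsum : ∑ i ∈ s', f i • a i = ∑ i ∈ s, f i • a i := by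
    refine Finset.sum_subset (Finset.filter_subset _ _) ?_
    intro i hi hi'
    have : f i = 0 := by
      by_contra h0
      exact hi' (Finset.mem_filter.2 ⟨hi, h0⟩)
    rw [this, zero_smul]
  have hne' : s'.Nonempty := by
    obtain ⟨i, hi, hi0⟩ := hne
    exact ⟨i, Finset.mem_filter.2 ⟨hi, hi0⟩⟩
  have hterm : ∀ i ∈ s', f i • a i ≠ 0 := by
    intro i hi
    rw [Algebra.smul_def]
    exact mul_ne_zero (alg_ne (Finset.mem_filter.1 hi).2) (h.a_ne i)
  have hdist : ∀ i ∈ s', ∀ j ∈ s', i ≠ j → W (f i • a i) ≠ W (f j • a j) := by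
    intro i hi j hj hij heq
    apply hij
    apply h.a_dist
    have hi0 := (Finset.mem_filter.1 hi).2
    have hj0 := (Finset.mem_filter.1 hj).2
    rw [Algebra.smul_def, Algebra.smul_def, W.map_mul (alg_ne hi0) (h.a_ne i),
      W.map_mul (alg_ne hj0) (h.a_ne j)] at heq
    have : W (a i) - W (a j) = W (algebraMap F K (f j)) - W (algebraMap F K (f i)) := by
      linarith
    rw [this]
    exact Γ.sub_mem (h.val _ hj0) (h.val _ hi0)
  obtain ⟨h1, -, h2⟩ := sum_min (W := W) s' hne' (fun i => f i • a i) hterm hdist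
  rw [hsum] at h1 h2
  exact ⟨h1, fun j hj hj0 => h2 j (Finset.mem_filter.2 ⟨hj, hj0⟩)⟩

/-- The `a i` are linearly independent. -/
theorem L5Data.li (h : L5Data W a Γ T ρ) : LinearIndependent F a := by
  classical
  rw [linearIndependent_iff']
  intro s g hg i hi
  by_contra h0
  exact (h.ge s g ⟨i, hi, h0⟩).1 hg

/-- The map `b ↦ (T (a i⁻¹ b))` is injective. -/
theorem L5Data.inj (h : L5Data W a Γ T ρ) {b : K} (hb : ∀ i, T ((a i)⁻¹ * b) = 0) : b = 0 := by
  by_contra h0
  obtain ⟨i, hi⟩ := h.a_cov b h0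
  have h1 : (a i)⁻¹ * b ≠ 0 := mul_ne_zero (inv_ne_zero (h.a_ne i)) h0
  refine (h.T_val h1 ?_).1 (hb i)
  rw [W.map_mul (inv_ne_zero (h.a_ne i)) h0, W.map_inv (h.a_ne i)]
  rw [neg_add_eq_sub]
  exact hi

/-- Row L5, first half: the `a i` span `K`. -/
theorem L5Data.span [Fintype ι] (h : L5Data W a Γ T ρ) (b : K) :
    ∃ f : ι → F, b = ∑ i, f i • a i := by
  classical
  let τ : K →ₗ[F] (ι → F) := LinearMap.pi fun i => T.comp (LinearMap.mulLeft F (a i)⁻¹)
  have hτ : ∀ b i, τ b i = T ((a i)⁻¹ * b) := fun _ _ => rfl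
  have hinj : Function.Injective τ := by
    rw [injective_iff_map_eq_zero]
    intro b hb
    exact h.inj fun i => by rw [← hτ, hb]; rfl
  have hfin : FiniteDimensional F K := FiniteDimensional.of_injective τ hinj
  have h1 : Module.finrank F K ≤ Fintype.card ι := by
    have := LinearMap.finrank_le_finrank_of_injective hinj
    rwa [Module.finrank_fintype_fun_eq_card] at this
  have h2 : Module.finrank F K = Fintype.card ι := le_antisymm h1 h.li.fintype_card_le_finrank
  have h3 : Submodule.span F (Set.range a) = ⊤ := h.li.span_eq_top_of_card_eq_finrank' h2.symm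
  have h4 : b ∈ Submodule.span F (Set.range a) := by rw [h3]; trivial
  obtain ⟨f, hf⟩ := (Submodule.mem_span_range_iff_exists_fun F).1 h4
  exact ⟨f, hf.symm⟩

/-- The matrix `T (a i⁻¹ a j)`. -/
def L5M (a : ι → K) (T : K →ₗ[F] F) : Matrix ι ι F := fun i j => T ((a i)⁻¹ * a j)

/-- The determinant of the matrix `T (a i⁻¹ a j)` is `ρ ^ h` modulo the elements of positive
value. -/
theorem L5Data.det [Fintype ι] [DecidableEq ι] (h : L5Data W a Γ T ρ) :
    VPos W (algebraMap F K ((L5M a T).det - ρ ^ Fintype.card ι)) := by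
  classical
  have hdiag : ∀ i, L5M a T i i = ρ := by
    intro i
    show T ((a i)⁻¹ * a i) = ρ
    rw [inv_mul_cancel₀ (h.a_ne i), ← map_one (algebraMap F K), h.T_alg, mul_one]
  -- the entries
  have hent : ∀ i j, i ≠ j → L5M a T i j ≠ 0 →
      W (a j) - W (a i) < W (algebraMap F K (L5M a T i j)) := by
    intro i j hij h0
    have h1 : (a i)⁻¹ * a j ≠ 0 := mul_ne_zero (inv_ne_zero (h.a_ne i)) (h.a_ne j)
    have h2 : W ((a i)⁻¹ * a j) = W (a j) - W (a i) := by
      rw [W.map_mul (inv_ne_zero (h.a_ne i)) (h.a_ne j), W.map_inv (h.a_ne i)]; ring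
    have h3 := h.T_gt h1 (fun h4 => hij (h.a_dist j i (by rw [← h2]; exact h4)).symm) h0
    rwa [h2] at h3
  have hent' : ∀ i j, L5M a T i j ≠ 0 →
      W (a j) - W (a i) ≤ W (algebraMap F K (L5M a T i j)) := by
    intro i j h0
    by_cases hij : i = j
    · subst hij
      rw [hdiag, h.ρ_val, sub_self]
    · exact (hent i j hij h0).le
  rw [Matrix.det_apply, ← Finset.add_sum_erase _ _ (Finset.mem_univ (1 : Equiv.Perm ι))]
  have h1 : Equiv.Perm.sign (1 : Equiv.Perm ι) • ∏ i, L5M a T ((1 : Equiv.Perm ι) i) i =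
      ρ ^ Fintype.card ι := by
    rw [Equiv.Perm.sign_one, one_smul, Finset.prod_congr rfl fun i _ => by
      rw [Equiv.Perm.one_apply, hdiag], Finset.prod_const, Finset.card_univ]
  rw [h1, add_sub_cancel_left, map_sum]
  refine vpos_sum _ _ fun σ hσ => ?_
  have hσ1 : σ ≠ 1 := (Finset.mem_erase.1 hσ).1
  intro h0
  have h0' : Equiv.Perm.sign σ • ∏ i, L5M a T (σ i) i ≠ 0 := by
    intro h2
    rw [h2, map_zero] at h0
    exact h0 rfl
  have h3 : ∏ i, L5M a T (σ i) i ≠ 0 := by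
    intro h2
    rw [h2, smul_zero] at h0'
    exact h0' rfl
  have h4 : ∀ i, L5M a T (σ i) i ≠ 0 := fun i => Finset.prod_ne_zero_iff.1 h3 i (Finset.mem_univ i)
  have h5 : W (algebraMap F K (Equiv.Perm.sign σ • ∏ i, L5M a T (σ i) i)) =
      ∑ i, W (algebraMap F K (L5M a T (σ i) i)) := by
    have h6 : algebraMap F K (∏ i, L5M a T (σ i) i) ≠ 0 := alg_ne h3
    have h7 : W (algebraMap F K (∏ i, L5M a T (σ i) i)) =
        ∑ i, W (algebraMap F K (L5M a T (σ i) i)) := by
      rw [map_prod, W.map_prod _ _ fun i _ => alg_ne (h4 i)]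
    rcases Int.units_eq_one_or (Equiv.Perm.sign σ) with hs | hs
    · rw [hs, one_smul, h7]
    · rw [hs, Units.neg_smul, one_smul, map_neg, W.map_neg _ h6, h7]
  rw [h5]
  obtain ⟨i₀, hi₀⟩ : ∃ i, σ i ≠ i := by
    by_contra hcon
    push Not at hcon
    exact hσ1 (Equiv.ext hcon)
  have h8 : ∑ i, (W (a i) - W (a (σ i))) = 0 := by
    rw [Finset.sum_sub_distrib, Equiv.sum_comp σ fun i => W (a i), sub_self]
  rw [← h8]
  exact Finset.sum_lt_sum (fun i _ => hent' _ _ (h4 i)) ⟨i₀, Finset.mem_univ _, hent _ _ hi₀ (h4 i₀)⟩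

/-- Row L5, second half: the coordinates of the elements of `AX = A[1/χ]` are in `RX = R[1/χ]`. -/
theorem L5Data.coord_mem [Fintype ι] (h : L5Data W a Γ T ρ) (AX : Subring K) (RX : Subring F)
    (hT : ∀ b ∈ AX, T b ∈ RX) (ha : ∀ i, a i ∈ AX) (hai : ∀ i, (a i)⁻¹ ∈ AX)
    (hunit : ∀ f ∈ RX, VPos W (algebraMap F K (f - ρ ^ Fintype.card ι)) → f⁻¹ ∈ RX)
    (f : ι → F) (hf : ∑ i, f i • a i ∈ AX) : ∀ i, f i ∈ RX := by
  classical
  have hM : ∀ i j, L5M a T i j ∈ RX := fun i j => hT _ (AX.mul_mem (hai i) (ha j))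
  have hdet : (L5M a T).det ∈ RX := by
    rw [Matrix.det_apply]
    refine Subring.sum_mem _ fun σ _ => ?_
    rcases Int.units_eq_one_or (Equiv.Perm.sign σ) with hs | hs
    · rw [hs, one_smul]
      exact Subring.prod_mem _ fun i _ => hM _ _
    · rw [hs, Units.neg_smul, one_smul]
      exact RX.neg_mem (Subring.prod_mem _ fun i _ => hM _ _)
  have hinv : (L5M a T).det⁻¹ ∈ RX := hunit _ hdet h.det
  have hne : (L5M a T).det ≠ 0 := by
    intro h0
    have h1 := h.det
    rw [h0, zero_sub, map_neg] at h1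
    have h2 : algebraMap F K (ρ ^ Fintype.card ι) ≠ 0 := alg_ne (pow_ne_zero _ h.ρ_ne)
    have h3 := h1 (neg_ne_zero.2 h2)
    rw [W.map_neg _ h2, map_pow, W.map_pow (alg_ne h.ρ_ne), h.ρ_val, mul_zero] at h3
    exact lt_irrefl _ h3
  -- the system
  have h1 : (L5M a T).mulVec f = fun i => T ((a i)⁻¹ * ∑ j, f j • a j) := by
    funext i
    rw [Matrix.mulVec, dotProduct, Finset.mul_sum, map_sum]
    refine Finset.sum_congr rfl fun j _ => ?_
    rw [mul_smul_comm, map_smul, smul_eq_mul, mul_comm]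
    rfl
  have h2 : (L5M a T).det • f = (L5M a T).adjugate.mulVec fun i => T ((a i)⁻¹ * ∑ j, f j • a j) := by
    rw [← h1, Matrix.mulVec_mulVec, Matrix.adjugate_mul, Matrix.smul_mulVec, Matrix.one_mulVec]
  intro i
  have h3 := congrFun h2 i
  rw [Pi.smul_apply, smul_eq_mul] at h3
  have h4 : f i = (L5M a T).det⁻¹ *
      ((L5M a T).adjugate.mulVec fun i => T ((a i)⁻¹ * ∑ j, f j • a j)) i := by
    rw [← h3, inv_mul_cancel_left₀ hne]
  rw [h4]
  refine RX.mul_mem hinv ?_
  rw [Matrix.mulVec, dotProduct]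
  refine Subring.sum_mem _ fun j _ => RX.mul_mem ?_ (hT _ (AX.mul_mem (hai j) hf))
  rw [Matrix.adjugate_apply, Matrix.det_apply]
  refine Subring.sum_mem _ fun σ _ => ?_
  have h5 : ∏ l, (L5M a T).updateRow j (Pi.single i 1) (σ l) l ∈ RX := by
    refine Subring.prod_mem _ fun l _ => ?_
    by_cases hl : σ l = j
    · rw [hl, Matrix.updateRow_self]
      by_cases hl2 : l = i
      · subst hl2
        rw [Pi.single_eq_same]
        exact RX.one_mem
      · rw [Pi.single_eq_of_ne hl2]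
        exact RX.zero_mem
    · rw [Matrix.updateRow_ne hl]
      exact hM _ _
  rcases Int.units_eq_one_or (Equiv.Perm.sign σ) with hs | hs
  · rw [hs, one_smul]
    exact h5
  · rw [hs, Units.neg_smul, one_smul]
    exact RX.neg_mem h5

end L5

end Pool.Agent.ALL6
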