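import Pool.Agent.Lib.ALL6_h36.A2b
import Pool.Agent.Lib.ALL_h18.ZTS

/-!
# Block Z of PROJECT ALL, row T4: `A₂` is the ring of a frame
-/

set_option autoImplicit false

namespace Pool.Agent.ALL6

open Pool.Agent.H15JM (RVal)
open Pool.Agent.LU1 (VPos locv FracIs fixO GoodBasis mem_fixO)
open Pool.Agent.TAO (OVal)
open Pool.Agent.D2 (Ctx0)
open Pool.Agent.ALL (FR)
open Pool.Agent.ALLZ (NRing DP CN RD FD AH mem_AH)
open Pool.Agent.ALL_h18 (IsCont YA ContP A2C ZD)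

universe u

variable {k Ω : Type u} [Field k] [Field Ω] [Algebra k Ω] {v : RVal Ω} {D : ℕ}

theorem AX.same {B B₁ : FR k v D} (h : B.Same B₁) {A : Subalgebra k Ω} {a : Ω} :
    AX B₁ A a ↔ AX B A a := by
  constructor
  · rintro ⟨γ, hγ, h1⟩
    have hγ' : γ ∈ B.Γ := by rw [← h.Γ_eq]; exact hγ
    exact ⟨γ, hγ', by rw [← h.χ_eq γ hγ']; exact h1⟩
  · rintro ⟨γ, hγ, h1⟩
    exact ⟨γ, by rw [h.Γ_eq]; exact hγ, by rw [h.χ_eq γ hγ]; exact h1⟩

/-- `B.R = B.R[1/χ] ∩ {w ≥ 0}`. -/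
theorem IsCont.cut {B : FR k v D} {w : RVal Ω} (h : IsCont B w) {f : Ω} (hf : AX B B.R f)
    (h0 : f ≠ 0) (hw : 0 ≤ w f) : f ∈ B.R := by
  obtain ⟨γ, hγ, h1⟩ := hf
  have hχ := B.χ_ne γ hγ
  have h2 : B.χ γ * f ≠ 0 := mul_ne_zero hχ h0
  have h3 : w (B.χ γ * f) = γ + w f := by rw [w.map_mul hχ h0, h.χ γ hγ]
  have h4 := h.val _ h1 h2
  have h5 := h.div _ h1 h2
  rw [h3] at h4 h5
  have h6 : w f ∈ B.Γ := by
    have := B.Γ.sub_mem h4 hγ
    rwa [add_sub_cancel_left] at this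
  have h7 : f = B.χ (w f) * (B.χ γ * f / B.χ (γ + w f)) := by
    rw [B.χ_add γ hγ _ h6]
    have := B.χ_ne _ h6
    field_simp
  rw [h7]
  exact B.R.mul_mem (B.χ_mem _ h6 hw) h5

/-- `(y)^n A + J` in two forms. -/
theorem YJ.exists_YA {w : RVal Ω} {A : Subalgebra k Ω} {y : Fin D → Ω}
    (hy : ∀ i, w.Ge 0 (y i)) : ∀ (n : ℕ) (a : Ω), YJ w A y n a →
      ∃ e ∈ YA A y n, VPos w (a - e) := by
  intro n
  induction n with
  | zero =>
    intro a ha
    refine ⟨a, AddSubgroup.subset_closure ⟨0, by simp, a, ha, by simp⟩, ?_⟩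
    rw [sub_self]
    exact VPos.zero
  | succ n ih =>
    rintro a ⟨b, hb, j, hj, hjp, rfl⟩
    choose e he he' using fun i => ih (b i) (hb i).2
    refine ⟨∑ i, y i * e i, AddSubgroup.sum_mem _ fun i _ => ?_, ?_⟩
    · have h1 : ∀ x ∈ YA A y n, y i * x ∈ YA A y (n + 1) := by
        intro x hx
        unfold YA at hx
        induction hx using AddSubgroup.closure_induction with
        | mem x hx =>
          classical
          obtain ⟨β, hβ, c, hc, rfl⟩ := hx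
          refine AddSubgroup.subset_closure ⟨β + Pi.single i 1, ?_, c, hc, ?_⟩
          · simp only [Pi.add_apply, Finset.sum_add_distrib, hβ, Finset.sum_pi_single',
              Finset.mem_univ, if_true]
          · rw [← mul_assoc]
            congr 1
            simp only [Pi.add_apply, pow_add, Finset.prod_mul_distrib]
            rw [mul_comm]
            congr 1
            rw [Finset.prod_eq_single i]
            · simp
            · intro l _ hl
              rw [Pi.single_eq_of_ne hl, pow_zero]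
            · intro h; exact absurd (Finset.mem_univ i) h
        | zero => rw [mul_zero]; exact AddSubgroup.zero_mem _
        | add x z _ _ hx hz => rw [mul_add]; exact AddSubgroup.add_mem _ hx hz
        | neg x _ hx => rw [mul_neg]; exact AddSubgroup.neg_mem _ hx
      exact h1 _ (he i)
    · have h1 : ∑ i, y i * b i + j - ∑ i, y i * e i = ∑ i, y i * (b i - e i) + j := by
        rw [Finset.sum_congr rfl fun i _ => mul_sub (y i) (b i) (e i), Finset.sum_sub_distrib]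
        ring
      rw [h1]
      exact (ALLZ_vpos_sum _ _ fun i _ => VPos.mul' (hy i) (he' i)).add hjp

variable {K : IntermediateField k Ω} {N : IntermediateField K Ω}
variable {p n r : ℕ} {B B₁ : FR k v D} {hR : NRing v K B.R} {H : Subgroup (N ≃ₐ[K] N)}
  {w : RVal Ω} {u : Fin r → ℝ}

/-- The data of rows L4 and L5 from the conclusions of the tame toric theorem. -/
theorem ZD.wdata [hp : Fact p.Prime] [FiniteDimensional K N] (h : ZD p n B B₁ hR N H w u)
    (hA : A2C B w hR.frac.1 N H) : WData B hR N H B₁ w where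
  same := h.same
  R_eq := h.ring
  pos := ⟨u ⟨0, h.rpos⟩, by rw [h.same.Γ_eq]; exact h.basis.mem _, h.basis.pos _⟩
  chi := h.cont.χ
  cutR := fun f hf h0 hw => IsCont.cut h.cont.toIsCont hf h0 hw
  valF := by
    intro f hf hf0
    obtain ⟨a, ha, b, hb, hb0, rfl⟩ := (ALLZ.RD_nring (N := N) hR).frac.2 f hf
    have ha0 : a ≠ 0 := by rintro rfl; exact hf0 (zero_div _)
    rw [← h.ring] at ha hb
    rw [w.map_div ha0 hb0]
    exact B₁.Γ.sub_mem (h.cont.val a ha ha0) (h.cont.val b hb hb0)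
  posA := fun f hf h0 hw => hA.pos f hf (fun _ => hw) h0
  inv := fun σ hσ b hb hb0 => hA.val_eq σ hσ b ((mem_fixO K N _ _).2 ⟨b, rfl, hb⟩) hb0
  cut := fun a ha h0 hw => hA.cut a ((AX.same h.same).1 ha) fun _ => hw
  ge := fun a ha h0 => hA.w_ge a (mem_AH.1 ha).1 h0
  unit := by
    intro b hb hb0
    obtain ⟨a, ha0, h1, h2, h3⟩ := hA.unit b hb hb0
    exact ⟨a, ha0, (AX.same h.same).2 h1, (AX.same h.same).2 h2, h3⟩
  gen := by
    intro f hf hv
    obtain ⟨b, hb, e, he, hep, hfe⟩ := hA.gen f hf hv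
    exact ⟨b, hb, e, he, hep, by rw [h.same.y_eq]; exact hfe⟩
  krull := by
    intro a ha hn
    refine hA.krull a ha fun j => ?_
    rw [← h.same.y_eq]
    refine YJ.exists_YA (fun i => ?_) j a (hn j)
    exact h.cont.nonneg _ (B₁.y_mem i)
  tors := by
    obtain ⟨e, he, h1⟩ := hA.tors
    exact ⟨e, he, fun b hb hb0 => by rw [h.same.Γ_eq]; exact h1 b hb hb0⟩

end Pool.Agent.ALL6

namespace Pool.Agent.ALL_h18

open Pool.Agent.H15JM (RVal)
open Pool.Agent.LU1 (VPos locv FracIs fixO GoodBasis mem_fixO)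
open Pool.Agent.TAO (OVal)
open Pool.Agent.ALL (FR ICl decP XD)
open Pool.Agent.ALLZ (NRing CN DP FD RD AH le_AH)
open Pool.Agent.ALL6 (AX)

universe u

variable {k Ω : Type u} [Field k] [Field Ω] [Algebra k Ω] {v : RVal Ω} {D : ℕ}
variable {K : IntermediateField k Ω} {N : IntermediateField K Ω}
variable {p n r : ℕ} {B B₁ : FR k v D} {hR : NRing v K B.R} {H : Subgroup (N ≃ₐ[K] N)}
  {w : RVal Ω} {u : Fin r → ℝ}

/-- ROW T4: `A₂` is the ring of a frame. -/
theorem exists_C2 [hp : Fact p.Prime] [CharP Ω p] (hk : ∀ c : k, ∃ d : k, d ^ p = c)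
    [FiniteDimensional K N] [IsGalois K N] (h : ZD p n B B₁ hR N H w u)
    (hA : A2C B w hR.frac.1 N H) :
    ∃ C₂ : FR k v D, C₂.R = AH v B.R (DP v B.R N hR.frac.1 ⊓ H) ∧
      (∀ γ, γ ∈ C₂.Γ ↔ ∃ a ∈ fixO K N (DP v B.R N hR.frac.1 ⊓ H), a ≠ 0 ∧ w a = γ) ∧
      C₂.y = B.y ∧ (∀ γ ∈ B.Γ, C₂.Un (B.χ γ / C₂.χ γ)) ∧
      ∀ γ ∈ C₂.Γ, AX B (AH v B.R (DP v B.R N hR.frac.1 ⊓ H)) (C₂.χ γ) ∧
        AX B (AH v B.R (DP v B.R N hR.frac.1 ⊓ H)) (C₂.χ γ)⁻¹ ∧ w (C₂.χ γ) = γ := by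
  have hW := ALL6.ZD.wdata h hA
  have hc : D2.Ctx0 k v := ⟨h.ctx.triv, h.ctx.res⟩
  have hidx : (DP v B.R N hR.frac.1 ⊓ H).relIndex (DP v B.R N hR.frac.1) < p := by
    rw [Subgroup.inf_relIndex_left]
    exact h.idx
  obtain ⟨C, h1, h2, h3, h4, h5⟩ := (hW.tame p hc hidx).exists_FR
  refine ⟨C, h1, fun γ => ?_, by rw [h3, h.same.y_eq], ?_, ?_⟩
  · rw [h2]
    exact Iff.rfl
  · intro γ hγ
    rw [← h.same.χ_eq γ hγ]
    exact h4 γ (by rw [h.same.Γ_eq]; exact hγ)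
  · intro γ hγ
    rw [h2] at hγ
    obtain ⟨h6, h7, h8⟩ := h5 γ hγ
    exact ⟨(ALL6.AX.same h.same).1 h6, (ALL6.AX.same h.same).1 h7, h8⟩

end Pool.Agent.ALL_h18
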